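import Pool.Agent.Lib.MP_2b2af9_co.Vanish
import Pool.Agent.Lib.MP_2b2af9_co.Dense

section

/-!
# Levels

Vanishing of character sums of `p`-power order of a multiset in `Z × Z`, seen modulo `(p, p ^ k)`.
-/

set_option autoImplicit false

open Finset

namespace Pool.Agent.Lib.MP_2b2af9_co.Lev

/-- `exp (2 π i z / N)` -/
noncomputable def ee (N : ℕ) (z : ℤ) : ℂ :=
  Complex.exp (2 * (Real.pi : ℂ) * Complex.I * (z : ℂ) / (N : ℂ))

theorem ee_std (N : ℕ) [NeZero N] (z : ℤ) : ee N z = ZMod.stdAddChar (z : ZMod N) :=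
  (ZMod.stdAddChar_coe z).symm

theorem ee_add (N : ℕ) (z z' : ℤ) : ee N (z + z') = ee N z * ee N z' := by
  unfold ee
  rw [← Complex.exp_add]
  congr 1
  push_cast
  ring

theorem ee_zero (N : ℕ) : ee N 0 = 1 := by
  unfold ee
  simp

theorem ee_congr (N : ℕ) [NeZero N] {z z' : ℤ} (h : (N : ℤ) ∣ z - z') : ee N z = ee N z' := by
  rw [ee_std, ee_std, (ZMod.intCast_eq_intCast_iff_dvd_sub z' z N).2 h]

theorem ee_mul (p N : ℕ) (hp : p ≠ 0) (z : ℤ) : ee (p * N) (p * z) = ee N z := by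
  unfold ee
  congr 1
  have hp' : (p : ℂ) ≠ 0 := by exact_mod_cast hp
  push_cast
  rcases eq_or_ne N 0 with rfl | hN
  · simp
  · have hN' : (N : ℂ) ≠ 0 := by exact_mod_cast hN
    field_simp

theorem sum_shift_one {M : Type*} [AddCommMonoid M] (N : ℕ) (h : ℤ → M)
    (hp : ∀ z, h (z + N) = h z) : ∑ β ∈ range N, h (β + 1) = ∑ β ∈ range N, h β := by
  rcases N with _ | n
  · rfl
  · rw [sum_range_succ, sum_range_succ' (fun β : ℕ => h (β : ℤ))]
    have h1 : h ((n : ℤ) + 1) = h ((0 : ℕ) : ℤ) := by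
      have h2 := hp 0
      push_cast at h2 ⊢
      rw [zero_add] at h2
      exact h2
    rw [h1]
    congr 1

theorem sum_shift {M : Type*} [AddCommMonoid M] (N : ℕ) (h : ℤ → M)
    (hp : ∀ z, h (z + N) = h z) (δ : ℤ) :
    ∑ β ∈ range N, h (β + δ) = ∑ β ∈ range N, h β := by
  have hs : ∀ δ : ℤ, ∑ β ∈ range N, h (β + (δ + 1)) = ∑ β ∈ range N, h (β + δ) := by
    intro δ
    rw [← sum_shift_one N (fun z => h (z + δ))]
    · refine sum_congr rfl fun β _ => ?_
      congr 1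
      ring
    · intro z
      show h (z + N + δ) = h (z + δ)
      rw [show z + (N : ℤ) + δ = z + δ + N by ring, hp]
  induction δ using Int.induction_on with
  | zero => simp
  | succ i ih => rw [hs, ih]
  | pred i ih =>
    rw [← ih, ← hs (-(i : ℤ) - 1)]
    refine sum_congr rfl fun β _ => ?_
    congr 1
    ring

theorem sum_split {M : Type*} [AddCommMonoid M] (p N : ℕ) (h : ℤ → M) :
    ∑ β ∈ range (p * N), h β = ∑ β ∈ range N, ∑ l ∈ range p, h (β + l * N) := by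
  induction p with
  | zero => simp
  | succ p ih =>
    rw [Nat.succ_mul, sum_range_add, ih, ← sum_add_distrib]
    refine sum_congr rfl fun β _ => ?_
    rw [sum_range_succ]
    congr 2
    push_cast
    ring

theorem sum_zmod {M : Type*} [AddCommMonoid M] (N : ℕ) [NeZero N] (g : ZMod N → M) :
    ∑ x : ZMod N, g x = ∑ β ∈ range N, g (β : ZMod N) := by
  refine sum_bij' (fun x _ => x.val) (fun β _ => (β : ZMod N)) (fun x _ => ?_) (fun β _ => ?_)
    (fun x _ => ?_) (fun β hβ => ?_) (fun x _ => ?_)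
  · exact mem_range.2 (ZMod.val_lt x)
  · exact mem_univ _
  · exact ZMod.natCast_zmod_val x
  · exact ZMod.val_cast_of_lt (mem_range.1 hβ)
  · rw [ZMod.natCast_zmod_val]

/-- a function on `Z` of period `N` -/
def Pd (N : ℕ) {M : Type*} (Y : ℤ → M) : Prop := ∀ z, Y (z + N) = Y z

theorem Pd.mul {N : ℕ} {M : Type*} {Y : ℤ → M} (h : Pd N Y) (z m : ℤ) : Y (z + N * m) = Y z := by
  induction m using Int.induction_on with
  | zero => simp
  | succ i ih => rw [mul_add, mul_one, ← add_assoc, h, ih]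
  | pred i ih =>
    rw [← ih, ← h]
    congr 1
    ring

theorem Pd.congr {N : ℕ} {M : Type*} {Y : ℤ → M} (h : Pd N Y) {z z' : ℤ}
    (hz : (N : ℤ) ∣ z - z') : Y z = Y z' := by
  obtain ⟨m, hm⟩ := hz
  rw [show z = z' + N * m by rw [← hm]; ring, h.mul]

/-- vanishing at `u`, level `k` -/
def VC (p k : ℕ) (Y : ℤ → ℕ) (u : ℤ) : Prop :=
  ∑ β ∈ range (p ^ k), (Y β : ℂ) * ee (p ^ k) (u * β) = 0

/-- from level `k + 1` to level `k` -/
def push (p k : ℕ) (Y : ℤ → ℕ) : ℤ → ℕ := fun β => ∑ l ∈ range p, Y (β + l * (p ^ k : ℕ))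

/-- the total -/
def tot (p k : ℕ) (Y : ℤ → ℕ) : ℕ := ∑ β ∈ range (p ^ k), Y β

variable {p : ℕ} [hp : Fact p.Prime]

omit hp in
theorem tot_push (k : ℕ) (Y : ℤ → ℕ) : tot p (k + 1) Y = tot p k (push p k Y) := by
  unfold tot push
  rw [pow_succ', sum_split]

omit hp in
theorem push_pd {k : ℕ} {Y : ℤ → ℕ} (h : Pd (p ^ (k + 1)) Y) : Pd (p ^ k) (push p k Y) := by
  intro z
  unfold push
  rw [← sum_shift_one p (fun l : ℤ => Y (z + l * (p ^ k : ℕ)))]
  · refine sum_congr rfl fun l _ => ?_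
    congr 1
    ring
  · intro l
    have h1 := h (z + l * (p ^ k : ℕ))
    rw [← h1]
    congr 1
    push_cast
    ring

theorem VC_push (k : ℕ) (Y : ℤ → ℕ) (u : ℤ) :
    VC p (k + 1) Y (p * u) ↔ VC p k (push p k Y) u := by
  have hp0 : p ≠ 0 := hp.out.ne_zero
  have : NeZero (p ^ k) := ⟨pow_ne_zero _ hp0⟩
  unfold VC push
  rw [pow_succ', sum_split p (p ^ k) (fun β => (Y β : ℂ) * ee (p * p ^ k) (p * u * β))]
  have h1 : ∀ β ∈ range (p ^ k), ∑ l ∈ range p, (Y ((β : ℤ) + l * (p ^ k : ℕ)) : ℂ) *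
      ee (p * p ^ k) (p * u * ((β : ℤ) + l * (p ^ k : ℕ))) =
      ((∑ l ∈ range p, Y ((β : ℤ) + l * (p ^ k : ℕ)) : ℕ) : ℂ) * ee (p ^ k) (u * β) := by
    intro β _
    rw [Nat.cast_sum, sum_mul]
    refine sum_congr rfl fun l _ => ?_
    rw [mul_assoc (p : ℤ), ee_mul p (p ^ k) hp0]
    congr 1
    apply ee_congr
    refine ⟨u * l, ?_⟩
    ring
  rw [sum_congr rfl h1]

theorem per1 {k : ℕ} {Y : ℤ → ℕ} (h : Pd (p ^ (k + 1)) Y) {u : ℤ} (hu : ¬ (p : ℤ) ∣ u)
    (hv : VC p (k + 1) Y u) : Pd (p ^ k) Y := by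
  have hN : NeZero (p ^ (k + 1)) := ⟨pow_ne_zero _ hp.out.ne_zero⟩
  have hcop : IsUnit (u : ZMod (p ^ (k + 1))) := by
    have h1 : IsCoprime u ((p ^ (k + 1) : ℕ) : ℤ) := by
      push_cast
      apply IsCoprime.pow_right
      rw [isCoprime_comm]
      exact (Nat.prime_iff_prime_int.1 hp.out).coprime_iff_not_dvd.2 hu
    obtain ⟨a, b, hab⟩ := h1
    refine IsUnit.of_mul_eq_one (a : ZMod (p ^ (k + 1))) ?_
    have h2 : ((a * u + b * ((p ^ (k + 1) : ℕ) : ℤ) : ℤ) : ZMod (p ^ (k + 1))) = 1 := by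
      rw [hab]
      simp
    rw [Int.cast_add, Int.cast_mul, Int.cast_mul, Int.cast_natCast (p ^ (k + 1)), ZMod.natCast_self,
      mul_zero, add_zero, mul_comm] at h2
    exact h2
  obtain ⟨U, hU⟩ := hcop
  let f : ZMod (p ^ (k + 1)) → ℕ := fun x => Y (((U⁻¹ : (ZMod (p ^ (k + 1)))ˣ) * x).val : ℕ)
  have hf : ∑ x, (f x : ℂ) * ZMod.stdAddChar x = 0 := by
    rw [← Equiv.sum_comp (Units.mulLeft U)]
    rw [sum_zmod]
    rw [← hv]
    unfold VC at hv
    refine sum_congr rfl fun β hβ => ?_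
    have h1 : Units.mulLeft U (β : ZMod (p ^ (k + 1))) = U * β := rfl
    have h2 : f (U * β) = Y β := by
      show Y ((((U⁻¹ : (ZMod (p ^ (k + 1)))ˣ) : ZMod (p ^ (k + 1))) * (U * β)).val : ℕ) = Y β
      rw [Units.inv_mul_cancel_left, ZMod.val_cast_of_lt (mem_range.1 hβ)]
    rw [h1, h2, ee_std, hU]
    push_cast
    rfl
  intro z
  have h1 := BHp2.vanish p k (p ^ (k + 1)) rfl f hf (U * (z : ZMod (p ^ (k + 1))))
    (U : ZMod (p ^ (k + 1)))
  have h2 : f (U * (z : ZMod (p ^ (k + 1)))) = Y z := by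
    show Y ((((U⁻¹ : (ZMod (p ^ (k + 1)))ˣ) : ZMod (p ^ (k + 1))) * (U * z)).val : ℕ) = Y z
    rw [Units.inv_mul_cancel_left]
    apply h.congr
    rw [← ZMod.intCast_eq_intCast_iff_dvd_sub]
    simp
  have h3 : f (U * (z : ZMod (p ^ (k + 1))) + (p : ZMod (p ^ (k + 1))) ^ k * U) =
      Y (z + (p ^ k : ℕ)) := by
    show Y ((((U⁻¹ : (ZMod (p ^ (k + 1)))ˣ) : ZMod (p ^ (k + 1))) * (U * z +
      (p : ZMod (p ^ (k + 1))) ^ k * U)).val : ℕ) = Y (z + (p ^ k : ℕ))
    rw [mul_comm _ (U : ZMod (p ^ (k + 1))), ← mul_add, Units.inv_mul_cancel_left]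
    apply h.congr
    rw [← ZMod.intCast_eq_intCast_iff_dvd_sub]
    simp
  rw [h2, h3] at h1
  exact h1.symm

end Pool.Agent.Lib.MP_2b2af9_co.Lev
end

section

/-!
# Chains of levels
-/

set_option autoImplicit false

open Finset

namespace Pool.Agent.Lib.MP_2b2af9_co.Lev

variable {p : ℕ} [hp : Fact p.Prime]

omit hp in
theorem push_of_pd {k : ℕ} {Y : ℤ → ℕ} (h : Pd (p ^ k) Y) (β : ℤ) : push p k Y β = p * Y β := by
  unfold push
  have h1 : ∀ l ∈ range p, Y (β + l * (p ^ k : ℕ)) = Y β := fun l _ => by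
    rw [mul_comm, h.mul]
  rw [sum_congr rfl h1, sum_const, card_range, smul_eq_mul]

omit hp in
theorem tot_of_pd {k : ℕ} {Y : ℤ → ℕ} (h : Pd (p ^ k) Y) : tot p (k + 1) Y = p * tot p k Y := by
  rw [tot_push]
  unfold tot
  rw [mul_sum]
  exact sum_congr rfl fun β _ => push_of_pd h _

theorem dvd_of_VC (k : ℕ) : ∀ {Y : ℤ → ℕ}, Pd (p ^ k) Y → ∀ {u : ℤ}, VC p k Y u →
    p ∣ tot p k Y := by
  induction k with
  | zero =>
    intro Y _ u h
    unfold VC at h
    unfold tot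
    rw [pow_zero, range_one, sum_singleton] at *
    rw [Nat.cast_zero, mul_zero, ee_zero, mul_one] at h
    have h1 : Y ((0 : ℕ) : ℤ) = 0 := by exact_mod_cast h
    rw [h1]
    exact dvd_zero _
  | succ k ih =>
    intro Y hY u h
    by_cases hu : (p : ℤ) ∣ u
    · obtain ⟨u', rfl⟩ := hu
      rw [tot_push]
      exact ih (push_pd hY) ((VC_push k Y u').1 h)
    · rw [tot_of_pd (per1 hY hu h)]
      exact dvd_mul_right _ _

theorem not_dvd_aux {i i' : ℕ} (hi : i < p) (hi' : i' < p) (h : i ≠ i') (t t' : ℤ) :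
    ¬ (p : ℤ) ∣ (p * t + i) - (p * t' + i') := by
  rintro ⟨m, hm⟩
  have h1 : (p : ℤ) ∣ (i : ℤ) - i' := by
    refine ⟨m - t + t', ?_⟩
    have e : (p : ℤ) * (m - t + t') = p * m - p * t + p * t' := by ring
    rw [e, ← hm]
    ring
  have h2 : Nat.ModEq p i' i := Nat.modEq_iff_dvd.2 h1
  have h3 : i' % p = i % p := h2
  rw [Nat.mod_eq_of_lt hi, Nat.mod_eq_of_lt hi'] at h3
  exact h h3.symm

theorem mul_dvd_aux {k : ℕ} {t t' : ℤ} (h : ((p ^ (k + 1) : ℕ) : ℤ) ∣ p * t - p * t') :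
    ((p ^ k : ℕ) : ℤ) ∣ t - t' := by
  have hp0 : (p : ℤ) ≠ 0 := by exact_mod_cast hp.out.ne_zero
  rw [← mul_sub, pow_succ', Nat.cast_mul] at h
  exact Int.dvd_of_mul_dvd_mul_left hp0 h

/-- a large set without vanishing differences -/
theorem chain (k : ℕ) : ∀ (a : ℕ) {Y : ℤ → ℕ}, Pd (p ^ k) Y → (∀ γ, p ^ a ∣ Y γ) →
    tot p k Y ≠ 0 → ∃ (r : ℕ) (K : Finset ℤ), K.card * p ^ r = p ^ k ∧ p ^ (a + r) ∣ tot p k Y ∧
      ∀ x ∈ K, ∀ y ∈ K, x ≠ y → ¬ VC p k Y (x - y) ∧ ¬ ((p ^ k : ℕ) : ℤ) ∣ x - y := by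
  induction k with
  | zero =>
    intro a Y _ ha _
    refine ⟨0, {0}, by simp, ?_, ?_⟩
    · unfold tot
      exact dvd_sum fun β _ => ha β
    · intro x hx y hy hne
      rw [mem_singleton] at hx hy
      exact absurd (hx.trans hy.symm) hne
  | succ k ih =>
    intro a Y hY ha ht
    have hp0 : (p : ℤ) ≠ 0 := by exact_mod_cast hp.out.ne_zero
    have ht' : tot p k (push p k Y) ≠ 0 := by rwa [← tot_push]
    by_cases hQ : Pd (p ^ k) Y
    · obtain ⟨r, K, h1, h2, h3⟩ := ih (a + 1) (push_pd hY) (fun γ => by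
        rw [push_of_pd hQ, pow_succ']
        exact mul_dvd_mul_left _ (ha γ)) ht'
      have hinj : Function.Injective fun t : ℤ => (p : ℤ) * t := mul_right_injective₀ hp0
      refine ⟨r + 1, K.image fun t => (p : ℤ) * t, ?_, ?_, ?_⟩
      · rw [card_image_of_injective _ hinj, pow_succ, pow_succ, ← mul_assoc, h1]
      · rw [tot_push, show a + (r + 1) = a + 1 + r by ring]
        exact h2
      · intro x hx y hy hne
        obtain ⟨t, ht, rfl⟩ := mem_image.1 hx
        obtain ⟨t', ht', rfl⟩ := mem_image.1 hy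
        have hne' : t ≠ t' := fun h => hne (by rw [h])
        obtain ⟨h4, h5⟩ := h3 t ht t' ht' hne'
        refine ⟨fun h => h4 ?_, fun h => h5 (mul_dvd_aux h)⟩
        rw [← mul_sub] at h
        exact (VC_push k Y (t - t')).1 h
    · obtain ⟨r, K, h1, h2, h3⟩ := ih a (push_pd hY) (fun γ => dvd_sum fun l _ => ha _) ht'
      have hinj : ∀ x ∈ K ×ˢ range p, ∀ y ∈ K ×ˢ range p,
          (p : ℤ) * x.1 + (x.2 : ℤ) = (p : ℤ) * y.1 + (y.2 : ℤ) → x = y := by
        rintro ⟨t, i⟩ hx ⟨t', i'⟩ hy h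
        rw [mem_product, mem_range] at hx hy
        have hii : i = i' := by
          by_contra hne
          apply not_dvd_aux hx.2 hy.2 hne t t'
          have h' : (p : ℤ) * t + i = p * t' + i' := h
          rw [h', sub_self]
          exact dvd_zero _
        subst hii
        have h' : (p : ℤ) * t + i = p * t' + i := h
        have h'' := mul_left_cancel₀ hp0 (add_right_cancel h')
        rw [h'']
      refine ⟨r, (K ×ˢ range p).image fun x => (p : ℤ) * x.1 + (x.2 : ℤ), ?_, ?_, ?_⟩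
      · rw [card_image_of_injOn hinj, card_product, card_range, pow_succ, ← h1]
        ring
      · rw [tot_push]
        exact h2
      · intro x hx y hy hne
        obtain ⟨⟨t, i⟩, ht, rfl⟩ := mem_image.1 hx
        obtain ⟨⟨t', i'⟩, ht', rfl⟩ := mem_image.1 hy
        rw [mem_product, mem_range] at ht ht'
        by_cases hii : i = i'
        · subst hii
          have hne' : t ≠ t' := fun h => hne (by rw [h])
          obtain ⟨h4, h5⟩ := h3 t ht.1 t' ht'.1 hne'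
          have e : (p : ℤ) * t + (i : ℤ) - (p * t' + (i : ℤ)) = p * t - p * t' := by ring
          show ¬ VC p (k + 1) Y ((p : ℤ) * t + (i : ℤ) - (p * t' + (i : ℤ))) ∧
            ¬ _ ∣ (p : ℤ) * t + (i : ℤ) - (p * t' + (i : ℤ))
          rw [e]
          refine ⟨fun h => h4 ?_, fun h => h5 (mul_dvd_aux h)⟩
          rw [← mul_sub] at h
          exact (VC_push k Y (t - t')).1 h
        · have h4 := not_dvd_aux ht.2 ht'.2 hii t t'
          refine ⟨fun h => hQ (per1 hY h4 h), fun h => h4 (dvd_trans ?_ h)⟩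
          rw [pow_succ', Nat.cast_mul]
          exact dvd_mul_right _ _

end Pool.Agent.Lib.MP_2b2af9_co.Lev
end

section

/-!
# The groups `Z_p × Z_{p^k}`

`F α β` counts the elements of a multiset which are `α` modulo `p` in the first and `β` modulo `p ^ k` in the
second coordinate. If `p ^ r` is the exact power of `p` in the total, there is a set of at least
`p ^ (k + 1 - r)` elements of the dual group such that the transform of `F` does not vanish at their differences.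
-/

set_option autoImplicit false

open Finset

namespace Pool.Agent.Lib.MP_2b2af9_co.Lev

/-- vanishing at `(s, t)`, level `k` -/
def VF (p k : ℕ) [NeZero p] (F : ZMod p → ℤ → ℕ) (s t : ℤ) : Prop :=
  ∑ α : ZMod p, ∑ β ∈ range (p ^ k),
    (F α β : ℂ) * (ee p (s * (α.val : ℤ)) * ee (p ^ k) (t * β)) = 0

/-- the distribution along the class of `(c, 1)` -/
def W (p k : ℕ) [NeZero p] (F : ZMod p → ℤ → ℕ) (c : ZMod p) : ℤ → ℕ :=
  fun γ => ∑ α : ZMod p, F α (γ - (p ^ k : ℕ) * ((c * α).val : ℤ))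

/-- the total -/
def totF (p k : ℕ) [NeZero p] (F : ZMod p → ℤ → ℕ) : ℕ := ∑ α : ZMod p, tot p k (F α)

variable {p : ℕ} [hp : Fact p.Prime]

theorem W_pd {k : ℕ} {F : ZMod p → ℤ → ℕ} (hF : ∀ α, Pd (p ^ (k + 1)) (F α)) (c : ZMod p) :
    Pd (p ^ (k + 1)) (W p k F c) := by
  intro z
  unfold W
  refine sum_congr rfl fun α _ => ?_
  rw [← hF α (z - (p ^ k : ℕ) * ((c * α).val : ℤ))]
  congr 1
  ring

theorem push_W {k : ℕ} {F : ZMod p → ℤ → ℕ} (hF : ∀ α, Pd (p ^ (k + 1)) (F α)) (c : ZMod p)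
    (γ : ℤ) : push p k (W p k F c) γ = ∑ α : ZMod p, push p k (F α) γ := by
  unfold push W
  rw [sum_comm]
  refine sum_congr rfl fun α _ => ?_
  have h1 := (push_pd (hF α)).mul γ (-((c * α).val : ℤ))
  unfold push at h1
  rw [← h1]
  refine sum_congr rfl fun l _ => ?_
  congr 1
  ring

theorem VF_top {k : ℕ} {F : ZMod p → ℤ → ℕ} (hF : ∀ α, Pd (p ^ (k + 1)) (F α)) {c : ZMod p}
    {s t : ℤ} (hc : (s : ZMod p) = c * (t : ZMod p)) :
    VF p (k + 1) F s t ↔ VC p (k + 1) (W p k F c) t := by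
  have hN : NeZero (p ^ (k + 1)) := ⟨pow_ne_zero _ hp.out.ne_zero⟩
  have hk : p ^ k ≠ 0 := pow_ne_zero _ hp.out.ne_zero
  unfold VF VC W
  have h1 : ∀ α : ZMod p, ∑ β ∈ range (p ^ (k + 1)), (F α β : ℂ) *
      (ee p (s * (α.val : ℤ)) * ee (p ^ (k + 1)) (t * β)) =
      ∑ β ∈ range (p ^ (k + 1)), (F α (β - (p ^ k : ℕ) * ((c * α).val : ℤ)) : ℂ) *
        ee (p ^ (k + 1)) (t * β) := by
    intro α
    have h2 := sum_shift (p ^ (k + 1)) (fun β : ℤ => (F α (β - (p ^ k : ℕ) * ((c * α).val : ℤ)) : ℂ) *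
        ee (p ^ (k + 1)) (t * β)) (by
      intro z
      have h3 : F α (z + (p ^ (k + 1) : ℕ) - (p ^ k : ℕ) * ((c * α).val : ℤ)) =
          F α (z - (p ^ k : ℕ) * ((c * α).val : ℤ)) := by
        rw [← hF α (z - (p ^ k : ℕ) * ((c * α).val : ℤ))]
        congr 1
        ring
      have h4 : ee (p ^ (k + 1)) (t * (z + (p ^ (k + 1) : ℕ))) = ee (p ^ (k + 1)) (t * z) := by
        apply ee_congr
        exact ⟨t, by ring⟩
      show ((F α (z + (p ^ (k + 1) : ℕ) - (p ^ k : ℕ) * ((c * α).val : ℤ)) : ℕ) : ℂ) *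
        ee (p ^ (k + 1)) (t * (z + (p ^ (k + 1) : ℕ))) = _
      rw [h3, h4]) ((p ^ k : ℕ) * ((c * α).val : ℤ))
    rw [← h2]
    refine sum_congr rfl fun β _ => ?_
    have h5 : ee p (s * (α.val : ℤ)) = ee (p ^ (k + 1)) (t * ((p ^ k : ℕ) * ((c * α).val : ℤ))) := by
      have e : t * ((p ^ k : ℕ) * ((c * α).val : ℤ)) = (p ^ k : ℕ) * (t * ((c * α).val : ℤ)) := by
        ring
      rw [e, pow_succ, ee_mul (p ^ k) p hk]
      apply ee_congr
      rw [← ZMod.intCast_eq_intCast_iff_dvd_sub]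
      push_cast
      rw [ZMod.natCast_zmod_val, ZMod.natCast_zmod_val, hc]
      ring
    rw [add_sub_cancel_right, mul_add, ee_add, h5, mul_comm (ee (p ^ (k + 1)) (t * β))]
  rw [sum_congr rfl fun α _ => h1 α, sum_comm]
  have h2 : ∀ β ∈ range (p ^ (k + 1)), ∑ α : ZMod p,
      (F α ((β : ℤ) - (p ^ k : ℕ) * ((c * α).val : ℤ)) : ℂ) * ee (p ^ (k + 1)) (t * β) =
      ((∑ α : ZMod p, F α ((β : ℤ) - (p ^ k : ℕ) * ((c * α).val : ℤ)) : ℕ) : ℂ) *
        ee (p ^ (k + 1)) (t * β) := by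
    intro β _
    rw [Nat.cast_sum, sum_mul]
  rw [sum_congr rfl h2]

theorem top_pd {k : ℕ} {F : ZMod p → ℤ → ℕ} (hF : ∀ α, Pd (p ^ (k + 1)) (F α)) {c : ZMod p}
    {s t : ℤ} (hc : (s : ZMod p) = c * (t : ZMod p)) (ht : ¬ (p : ℤ) ∣ t)
    (h : VF p (k + 1) F s t) : Pd (p ^ k) (W p k F c) :=
  per1 (W_pd hF c) ht ((VF_top hF hc).1 h)

theorem exists_c {s t : ℤ} (ht : ¬ (p : ℤ) ∣ t) : ∃ c : ZMod p, (s : ZMod p) = c * (t : ZMod p) := by
  have h : (t : ZMod p) ≠ 0 := by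
    rw [Ne, ZMod.intCast_zmod_eq_zero_iff_dvd]
    exact ht
  exact ⟨s / t, (div_mul_cancel₀ _ h).symm⟩

theorem all_pd {k : ℕ} {F : ZMod p → ℤ → ℕ} (hF : ∀ α, Pd (p ^ (k + 1)) (F α))
    (h : ∀ c : ZMod p, Pd (p ^ k) (W p k F c)) (α₀ : ZMod p) : Pd (p ^ k) (F α₀) := by
  classical
  have hp0 : 0 < p := hp.out.pos
  -- the sums over the cosets
  let S : ZMod p → ℤ → ℕ := fun α β => ∑ m : ZMod p, F α (β + (p ^ k : ℕ) * (m.val : ℤ))
  have hS : ∀ α β, S α β = push p k (F α) β := by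
    intro α β
    show ∑ m : ZMod p, F α (β + (p ^ k : ℕ) * (m.val : ℤ)) = ∑ l ∈ range p, F α (β + l * (p ^ k : ℕ))
    rw [sum_zmod]
    refine sum_congr rfl fun l hl => ?_
    rw [ZMod.val_cast_of_lt (mem_range.1 hl), mul_comm]
  have hterm : ∀ (α c : ZMod p) (β : ℤ),
      F α (β + (p ^ k : ℕ) * ((c * α₀).val : ℤ) - (p ^ k : ℕ) * ((c * α).val : ℤ)) =
        F α (β + (p ^ k : ℕ) * ((c * (α₀ - α)).val : ℤ)) := by
    intro α c β
    apply (hF α).congr
    have h1 : (p : ℤ) ∣ ((c * α₀).val : ℤ) - ((c * α).val : ℤ) - ((c * (α₀ - α)).val : ℤ) := by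
      rw [← ZMod.intCast_zmod_eq_zero_iff_dvd]
      push_cast
      rw [ZMod.natCast_zmod_val, ZMod.natCast_zmod_val, ZMod.natCast_zmod_val]
      ring
    obtain ⟨m, hm⟩ := h1
    refine ⟨m, ?_⟩
    have e : β + (p ^ k : ℕ) * ((c * α₀).val : ℤ) - (p ^ k : ℕ) * ((c * α).val : ℤ) -
        (β + (p ^ k : ℕ) * ((c * (α₀ - α)).val : ℤ)) = (p ^ k : ℕ) *
        (((c * α₀).val : ℤ) - ((c * α).val : ℤ) - ((c * (α₀ - α)).val : ℤ)) := by ring
    rw [e, hm, pow_succ]
    push_cast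
    ring
  have hsum : ∀ β : ℤ, ∑ c : ZMod p, W p k F c (β + (p ^ k : ℕ) * ((c * α₀).val : ℤ)) =
      p * F α₀ β + ∑ α ∈ univ.erase α₀, push p k (F α) β := by
    intro β
    unfold W
    rw [sum_comm, ← add_sum_erase univ _ (mem_univ α₀)]
    congr 1
    · have h1 : ∀ c ∈ (univ : Finset (ZMod p)),
          F α₀ (β + (p ^ k : ℕ) * ((c * α₀).val : ℤ) - (p ^ k : ℕ) * ((c * α₀).val : ℤ)) = F α₀ β :=
        fun c _ => by rw [add_sub_cancel_right]
      rw [sum_congr rfl h1, sum_const, card_univ, ZMod.card, smul_eq_mul]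
    · refine sum_congr rfl fun α hα => ?_
      have hne : α₀ - α ≠ 0 := sub_ne_zero.2 (Ne.symm (ne_of_mem_erase hα))
      rw [sum_congr rfl fun c _ => hterm α c β, ← hS α β]
      exact Equiv.sum_comp (Equiv.mulRight₀ (α₀ - α) hne)
        (fun m : ZMod p => F α (β + (p ^ k : ℕ) * (m.val : ℤ)))
  intro z
  have h1 := hsum (z + (p ^ k : ℕ))
  have h2 : ∑ c : ZMod p, W p k F c (z + (p ^ k : ℕ) + (p ^ k : ℕ) * ((c * α₀).val : ℤ)) =
      ∑ c : ZMod p, W p k F c (z + (p ^ k : ℕ) * ((c * α₀).val : ℤ)) := by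
    refine sum_congr rfl fun c _ => ?_
    rw [← h c (z + (p ^ k : ℕ) * ((c * α₀).val : ℤ))]
    congr 1
    ring
  have h3 : ∑ α ∈ univ.erase α₀, push p k (F α) (z + (p ^ k : ℕ)) =
      ∑ α ∈ univ.erase α₀, push p k (F α) z :=
    sum_congr rfl fun α _ => push_pd (hF α) z
  rw [h2, hsum z, h3] at h1
  exact (Nat.eq_of_mul_eq_mul_left hp0 (Nat.add_right_cancel h1)).symm

theorem VF_push (k : ℕ) (F : ZMod p → ℤ → ℕ) (s t : ℤ) :
    VF p (k + 1) F s (p * t) ↔ VF p k (fun α => push p k (F α)) s t := by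
  have hp0 : p ≠ 0 := hp.out.ne_zero
  have : NeZero (p ^ k) := ⟨pow_ne_zero _ hp0⟩
  unfold VF push
  have h0 : ∀ α : ZMod p, ∑ β ∈ range (p ^ (k + 1)), (F α β : ℂ) *
      (ee p (s * (α.val : ℤ)) * ee (p ^ (k + 1)) (p * t * β)) =
      ∑ β ∈ range (p ^ k), ((∑ l ∈ range p, F α ((β : ℤ) + l * (p ^ k : ℕ)) : ℕ) : ℂ) *
        (ee p (s * (α.val : ℤ)) * ee (p ^ k) (t * β)) := by
    intro α
    rw [pow_succ', sum_split p (p ^ k) (fun β => (F α β : ℂ) *
      (ee p (s * (α.val : ℤ)) * ee (p * p ^ k) (p * t * β)))]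
    refine sum_congr rfl fun β _ => ?_
    rw [Nat.cast_sum, sum_mul]
    refine sum_congr rfl fun l _ => ?_
    rw [mul_assoc (p : ℤ), ee_mul p (p ^ k) hp0]
    congr 2
    apply ee_congr
    refine ⟨t * l, ?_⟩
    ring
  rw [sum_congr rfl fun α _ => h0 α]

theorem VF_smul (k : ℕ) (F : ZMod p → ℤ → ℕ) (s t : ℤ) :
    VF p k (fun α β => p * F α β) s t ↔ VF p k F s t := by
  have hp0 : (p : ℂ) ≠ 0 := by exact_mod_cast hp.out.ne_zero
  unfold VF
  have h : ∑ α : ZMod p, ∑ β ∈ range (p ^ k), ((p * F α β : ℕ) : ℂ) *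
      (ee p (s * (α.val : ℤ)) * ee (p ^ k) (t * β)) = p * ∑ α : ZMod p, ∑ β ∈ range (p ^ k),
      (F α β : ℂ) * (ee p (s * (α.val : ℤ)) * ee (p ^ k) (t * β)) := by
    rw [mul_sum]
    refine sum_congr rfl fun α _ => ?_
    rw [mul_sum]
    refine sum_congr rfl fun β _ => ?_
    push_cast
    ring
  rw [h, mul_eq_zero]
  exact ⟨fun h => h.resolve_left hp0, Or.inr⟩

theorem VF_dvd (k : ℕ) (F : ZMod p → ℤ → ℕ) {s : ℤ} (hs : (p : ℤ) ∣ s) (t : ℤ) :
    VF p k F s t ↔ VC p k (fun γ => ∑ α : ZMod p, F α γ) t := by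
  unfold VF VC
  rw [sum_comm]
  have h : ∀ β ∈ range (p ^ k), ∑ α : ZMod p, (F α β : ℂ) *
      (ee p (s * (α.val : ℤ)) * ee (p ^ k) (t * β)) =
      ((∑ α : ZMod p, F α β : ℕ) : ℂ) * ee (p ^ k) (t * β) := by
    intro β _
    rw [Nat.cast_sum, sum_mul]
    refine sum_congr rfl fun α _ => ?_
    have h1 : ee p (s * (α.val : ℤ)) = 1 := by
      rw [← ee_zero p]
      apply ee_congr
      rw [sub_zero]
      exact Dvd.dvd.mul_right hs _
    rw [h1, one_mul]
  rw [sum_congr rfl h]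

theorem totF_push (k : ℕ) (F : ZMod p → ℤ → ℕ) :
    totF p (k + 1) F = totF p k (fun α => push p k (F α)) := by
  unfold totF
  exact sum_congr rfl fun α _ => tot_push k (F α)

end Pool.Agent.Lib.MP_2b2af9_co.Lev
end

section

/-!
# A large set without vanishing differences
-/

set_option autoImplicit false

open Finset

namespace Pool.Agent.Lib.MP_2b2af9_co.Lev

variable {p : ℕ} [hp : Fact p.Prime]

theorem spread (k : ℕ) : ∀ {F : ZMod p → ℤ → ℕ}, (∀ α, Pd (p ^ k) (F α)) → totF p k F ≠ 0 →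
    ∃ (r : ℕ) (K : Finset (ℤ × ℤ)), K.card * p ^ r = p ^ (k + 1) ∧ p ^ r ∣ totF p k F ∧
      ∀ x ∈ K, ∀ y ∈ K, x ≠ y → ¬ VF p k F (x.1 - y.1) (x.2 - y.2) ∧
        ¬ ((p : ℤ) ∣ x.1 - y.1 ∧ ((p ^ k : ℕ) : ℤ) ∣ x.2 - y.2) := by
  have hp0 : (p : ℤ) ≠ 0 := by exact_mod_cast hp.out.ne_zero
  induction k with
  | zero =>
    intro F hF ht
    let Y : ℤ → ℕ := fun z => F (z : ZMod p) 0
    have hY : Pd (p ^ (0 + 1)) Y := by
      intro z
      show F ((z + (p ^ (0 + 1) : ℕ) : ℤ) : ZMod p) 0 = F (z : ZMod p) 0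
      congr 1
      simp
    have htot : tot p (0 + 1) Y = totF p 0 F := by
      unfold tot totF tot
      rw [sum_zmod, zero_add, pow_one]
      refine sum_congr rfl fun β _ => ?_
      rw [pow_zero, range_one, sum_singleton]
      show F (((β : ℕ) : ℤ) : ZMod p) 0 = F (β : ZMod p) ((0 : ℕ) : ℤ)
      rw [Int.cast_natCast, Nat.cast_zero]
    have hV : ∀ s t : ℤ, VF p 0 F s t ↔ VC p (0 + 1) Y s := by
      intro s t
      unfold VF VC
      rw [sum_zmod, zero_add, pow_one]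
      have h1 : ∀ β ∈ range p, ∑ γ ∈ range (p ^ 0), (F (β : ZMod p) γ : ℂ) *
          (ee p (s * (((β : ZMod p)).val : ℤ)) * ee (p ^ 0) (t * γ)) = (Y β : ℂ) * ee p (s * β) := by
        intro β hβ
        rw [pow_zero, range_one, sum_singleton, ZMod.val_cast_of_lt (mem_range.1 hβ),
          Nat.cast_zero, mul_zero, ee_zero, mul_one]
        show ((F (β : ZMod p) 0 : ℕ) : ℂ) * _ = ((F (((β : ℕ) : ℤ) : ZMod p) 0 : ℕ) : ℂ) * _
        rw [Int.cast_natCast]
      rw [sum_congr rfl h1]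
    obtain ⟨r, K, h1, h2, h3⟩ := chain (0 + 1) 0 hY (fun γ => by rw [pow_zero]; exact one_dvd _)
      (by rwa [htot])
    have hinj : Function.Injective fun s : ℤ => ((s, 0) : ℤ × ℤ) := fun x y h => (Prod.ext_iff.1 h).1
    refine ⟨r, K.image fun s => (s, 0), ?_, ?_, ?_⟩
    · rw [card_image_of_injective _ hinj]
      exact h1
    · rw [← htot, ← zero_add r]
      exact h2
    · intro x hx y hy hne
      obtain ⟨s, hs, rfl⟩ := mem_image.1 hx
      obtain ⟨s', hs', rfl⟩ := mem_image.1 hy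
      have hne' : s ≠ s' := fun h => hne (by rw [h])
      obtain ⟨h4, h5⟩ := h3 s hs s' hs' hne'
      refine ⟨fun h => h4 ((hV _ _).1 h), fun h => h5 ?_⟩
      rw [zero_add, pow_one]
      exact h.1
  | succ k ih =>
    intro F hF ht
    have hF' : ∀ α, Pd (p ^ k) ((fun α => push p k (F α)) α) := fun α => push_pd (hF α)
    have ht' : totF p k (fun α => push p k (F α)) ≠ 0 := by rwa [← totF_push]
    by_cases hall : ∀ c : ZMod p, Pd (p ^ k) (W p k F c)
    · -- all classes vanish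
      have hFk := all_pd hF hall
      have hpush : (fun α => push p k (F α)) = fun α β => p * F α β := by
        funext α β
        exact push_of_pd (hFk α) β
      have htot : totF p (k + 1) F = p * totF p k F := by
        unfold totF
        rw [mul_sum]
        exact sum_congr rfl fun α _ => tot_of_pd (hFk α)
      obtain ⟨r, K, h1, h2, h3⟩ := ih hFk (by
        intro h0
        rw [htot, h0, mul_zero] at ht
        exact ht rfl)
      have hinj : Function.Injective fun x : ℤ × ℤ => ((x.1, (p : ℤ) * x.2) : ℤ × ℤ) := by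
        intro x y h
        obtain ⟨h4, h5⟩ := Prod.ext_iff.1 h
        exact Prod.ext h4 (mul_left_cancel₀ hp0 h5)
      refine ⟨r + 1, K.image fun x => (x.1, (p : ℤ) * x.2), ?_, ?_, ?_⟩
      · rw [card_image_of_injective _ hinj, pow_succ, ← mul_assoc, h1, ← pow_succ]
      · rw [htot, pow_succ']
        exact mul_dvd_mul_left _ h2
      · intro x hx y hy hne
        obtain ⟨x', hx', rfl⟩ := mem_image.1 hx
        obtain ⟨y', hy', rfl⟩ := mem_image.1 hy
        have hne' : x' ≠ y' := fun h => hne (by rw [h])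
        obtain ⟨h4, h5⟩ := h3 x' hx' y' hy' hne'
        refine ⟨fun h => h4 ?_, fun h => h5 ⟨h.1, mul_dvd_aux h.2⟩⟩
        have h' : VF p (k + 1) F (x'.1 - y'.1) (p * x'.2 - p * y'.2) := h
        rw [← mul_sub, VF_push, hpush] at h'
        exact (VF_smul k F _ _).1 h'
    · obtain ⟨c₁, hc₁⟩ := not_forall.1 hall
      by_cases hnone : ∀ c : ZMod p, ¬ Pd (p ^ k) (W p k F c)
      · -- no class vanishes
        obtain ⟨r, K, h1, h2, h3⟩ := ih hF' ht'
        have hinj : ∀ x ∈ K ×ˢ range p, ∀ y ∈ K ×ˢ range p,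
            ((x.1.1, (p : ℤ) * x.1.2 + (x.2 : ℤ)) : ℤ × ℤ) = (y.1.1, (p : ℤ) * y.1.2 + (y.2 : ℤ)) →
              x = y := by
          rintro ⟨⟨s, t⟩, i⟩ hx ⟨⟨s', t'⟩, i'⟩ hy h
          rw [mem_product, mem_range] at hx hy
          obtain ⟨h4, h5⟩ := Prod.ext_iff.1 h
          have h5' : (p : ℤ) * t + i = p * t' + i' := h5
          have h4' : s = s' := h4
          have hii : i = i' := by
            by_contra hne
            apply not_dvd_aux hx.2 hy.2 hne t t'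
            rw [h5', sub_self]
            exact dvd_zero _
          subst hii
          have h'' := mul_left_cancel₀ hp0 (add_right_cancel h5')
          rw [h'', h4']
        refine ⟨r, (K ×ˢ range p).image fun x => (x.1.1, (p : ℤ) * x.1.2 + (x.2 : ℤ)), ?_, ?_, ?_⟩
        · rw [card_image_of_injOn hinj, card_product, card_range, pow_succ, ← h1]
          ring
        · rw [totF_push]
          exact h2
        · intro x hx y hy hne
          obtain ⟨⟨⟨s, t⟩, i⟩, ht, rfl⟩ := mem_image.1 hx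
          obtain ⟨⟨⟨s', t'⟩, i'⟩, ht', rfl⟩ := mem_image.1 hy
          rw [mem_product, mem_range] at ht ht'
          show ¬ VF p (k + 1) F (s - s') ((p : ℤ) * t + (i : ℤ) - (p * t' + (i' : ℤ))) ∧
            ¬ ((p : ℤ) ∣ s - s' ∧ ((p ^ (k + 1) : ℕ) : ℤ) ∣
              (p : ℤ) * t + (i : ℤ) - (p * t' + (i' : ℤ)))
          by_cases hii : i = i'
          · subst hii
            have hne' : ((s, t) : ℤ × ℤ) ≠ (s', t') := by
              intro h
              obtain ⟨h4, h5⟩ := Prod.ext_iff.1 h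
              have h4' : s = s' := h4
              have h5' : t = t' := h5
              exact hne (by rw [h4', h5'])
            obtain ⟨h4, h5⟩ := h3 (s, t) ht.1 (s', t') ht'.1 hne'
            have e : (p : ℤ) * t + (i : ℤ) - (p * t' + (i : ℤ)) = p * t - p * t' := by ring
            rw [e]
            refine ⟨fun h => h4 ?_, fun h => h5 ⟨h.1, mul_dvd_aux h.2⟩⟩
            rw [← mul_sub] at h
            exact (VF_push k F _ _).1 h
          · have h4 := not_dvd_aux ht.2 ht'.2 hii t t'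
            refine ⟨fun h => ?_, fun h => h4 (dvd_trans ?_ h.2)⟩
            · obtain ⟨c, hc⟩ := exists_c (s := s - s') h4
              exact hnone c (top_pd hF hc h4 h)
            · rw [pow_succ', Nat.cast_mul]
              exact dvd_mul_right _ _
      · -- some classes vanish and some do not
        push Not at hnone
        obtain ⟨c₀, hc₀⟩ := hnone
        let Y : ℤ → ℕ := fun γ => ∑ α : ZMod p, push p k (F α) γ
        have hY : Pd (p ^ k) Y := fun z => sum_congr rfl fun α _ => push_pd (hF α) z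
        have hYW : ∀ γ, Y γ = p * W p k F c₀ γ := by
          intro γ
          show ∑ α : ZMod p, push p k (F α) γ = _
          rw [← push_W hF c₀, push_of_pd hc₀]
        have htot : tot p k Y = totF p (k + 1) F := by
          rw [totF_push]
          unfold tot totF tot
          rw [sum_comm]
        obtain ⟨r, K, h1, h2, h3⟩ := chain k 1 hY (fun γ => by
          rw [hYW, pow_one]
          exact dvd_mul_right _ _) (by rwa [htot])
        -- the new set
        let g : ℤ × ℕ → ℤ × ℤ := fun x =>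
          ((c₁.val : ℤ) * ((p : ℤ) * x.1 + (x.2 : ℤ)), (p : ℤ) * x.1 + (x.2 : ℤ))
        have hinj : ∀ x ∈ K ×ˢ range p, ∀ y ∈ K ×ˢ range p, g x = g y → x = y := by
          rintro ⟨t, i⟩ hx ⟨t', i'⟩ hy h
          rw [mem_product, mem_range] at hx hy
          have h5 : (p : ℤ) * t + i = p * t' + i' := (Prod.ext_iff.1 h).2
          have hii : i = i' := by
            by_contra hne
            apply not_dvd_aux hx.2 hy.2 hne t t'
            rw [h5, sub_self]
            exact dvd_zero _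
          subst hii
          have h'' := mul_left_cancel₀ hp0 (add_right_cancel h5)
          rw [h'']
        refine ⟨1 + r, (K ×ˢ range p).image g, ?_, ?_, ?_⟩
        · rw [card_image_of_injOn hinj, card_product, card_range, pow_add, pow_one, pow_succ,
            pow_succ, ← h1]
          ring
        · rw [← htot]
          exact h2
        · intro x hx y hy hne
          obtain ⟨⟨t, i⟩, ht, rfl⟩ := mem_image.1 hx
          obtain ⟨⟨t', i'⟩, ht', rfl⟩ := mem_image.1 hy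
          rw [mem_product, mem_range] at ht ht'
          show ¬ VF p (k + 1) F ((c₁.val : ℤ) * ((p : ℤ) * t + (i : ℤ)) -
              (c₁.val : ℤ) * (p * t' + (i' : ℤ))) ((p : ℤ) * t + (i : ℤ) - (p * t' + (i' : ℤ))) ∧
            ¬ ((p : ℤ) ∣ (c₁.val : ℤ) * ((p : ℤ) * t + (i : ℤ)) -
              (c₁.val : ℤ) * (p * t' + (i' : ℤ)) ∧ ((p ^ (k + 1) : ℕ) : ℤ) ∣
              (p : ℤ) * t + (i : ℤ) - (p * t' + (i' : ℤ)))
          rw [← mul_sub]
          by_cases hii : i = i'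
          · subst hii
            have hne' : t ≠ t' := fun h => hne (by rw [h])
            obtain ⟨h4, h5⟩ := h3 t ht.1 t' ht'.1 hne'
            have e : (p : ℤ) * t + (i : ℤ) - (p * t' + (i : ℤ)) = p * t - p * t' := by ring
            rw [e]
            refine ⟨fun h => h4 ?_, fun h => h5 (mul_dvd_aux h.2)⟩
            rw [← mul_sub, VF_push, VF_dvd] at h
            · exact h
            · exact ⟨(c₁.val : ℤ) * (t - t'), by ring⟩
          · have h4 := not_dvd_aux ht.2 ht'.2 hii t t'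
            refine ⟨fun h => ?_, fun h => h4 (dvd_trans ?_ h.2)⟩
            · refine hc₁ (top_pd hF ?_ h4 h)
              push_cast
              rw [ZMod.natCast_zmod_val]
            · rw [pow_succ', Nat.cast_mul]
              exact dvd_mul_right _ _

end Pool.Agent.Lib.MP_2b2af9_co.Lev
end

section

/-!
# Application to spectral pairs in `Z_q × Z_q`
-/

set_option autoImplicit false

open Finset Pool.Agent.Lib.MP_2b2af9_co.Dense

namespace Pool.Agent.Lib.MP_2b2af9_co.Lev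

variable {q n : ℕ} [NeZero q] {a b : Fin n → V q}

theorem Fb_ee {d₁ d₂ : ℕ} (h₁ : d₁ ∣ q) (h₂ : d₂ ∣ q) (s t : ℤ) :
    F b (((((q / d₁ : ℕ) : ℤ) * s : ℤ) : ZMod q), ((((q / d₂ : ℕ) : ℤ) * t : ℤ) : ZMod q)) =
      ∑ j, ee d₁ (s * ((b j).1.val : ℤ)) * ee d₂ (t * ((b j).2.val : ℤ)) := by
  have hq : q ≠ 0 := NeZero.ne q
  have key : ∀ d : ℕ, d ∣ q → ∀ z : ℤ, ee q (((q / d : ℕ) : ℤ) * z) = ee d z := by
    intro d hd z
    have hdq : q / d * d = q := Nat.div_mul_cancel hd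
    have h0 : q / d ≠ 0 := by
      intro h0
      rw [h0, zero_mul] at hdq
      exact hq hdq.symm
    conv_lhs => rw [← hdq]
    rw [Nat.mul_div_cancel _ (Nat.pos_of_ne_zero (by
      rintro rfl
      rw [mul_zero] at hdq
      exact hq hdq.symm))]
    exact ee_mul (q / d) d h0 z
  unfold F
  refine sum_congr rfl fun j _ => ?_
  have h3 : dot ((((((q / d₁ : ℕ) : ℤ) * s : ℤ) : ZMod q),
      ((((q / d₂ : ℕ) : ℤ) * t : ℤ) : ZMod q)) : V q) (b j) =
      ((((q / d₁ : ℕ) : ℤ) * (s * ((b j).1.val : ℤ)) +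
        ((q / d₂ : ℕ) : ℤ) * (t * ((b j).2.val : ℤ)) : ℤ) : ZMod q) := by
    unfold dot
    push_cast
    rw [ZMod.natCast_zmod_val, ZMod.natCast_zmod_val]
    ring
  rw [h3]
  show ZMod.stdAddChar _ = _
  rw [← ee_std, ee_add, key d₁ h₁, key d₂ h₂]

/-- the counts -/
def cF (p k : ℕ) (b : Fin n → V q) (α : ZMod p) (β : ℤ) : ℕ :=
  #{j | (((b j).1.val : ℕ) : ZMod p) = α ∧ ((p ^ k : ℕ) : ℤ) ∣ ((b j).2.val : ℤ) - β}

omit [NeZero q] in
theorem cF_pd (p k : ℕ) (α : ZMod p) : Pd (p ^ k) (cF p k b α) := by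
  intro z
  unfold cF
  congr 1
  ext j
  rw [mem_filter, mem_filter]
  have h : ((p ^ k : ℕ) : ℤ) ∣ ((b j).2.val : ℤ) - (z + (p ^ k : ℕ)) ↔
      ((p ^ k : ℕ) : ℤ) ∣ ((b j).2.val : ℤ) - z := by
    rw [show ((b j).2.val : ℤ) - (z + (p ^ k : ℕ)) = ((b j).2.val : ℤ) - z - (p ^ k : ℕ) by ring]
    exact dvd_sub_self_right
  rw [h]

omit [NeZero q] in
theorem cF_sum {R : Type} [CommSemiring R] (p k : ℕ) [NeZero p] (g : ZMod p → ℕ → R) :
    ∑ α : ZMod p, ∑ β ∈ range (p ^ k), (cF p k b α β : R) * g α β =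
      ∑ j, g (((b j).1.val : ℕ) : ZMod p) ((b j).2.val % p ^ k) := by
  classical
  have hpos : 0 < p ^ k := pow_pos (Nat.pos_of_ne_zero (NeZero.ne p)) k
  have h1 : ∀ α : ZMod p, ∀ β ∈ range (p ^ k), (cF p k b α β : R) * g α β =
      ∑ j, if (((b j).1.val : ℕ) : ZMod p) = α ∧ (b j).2.val % p ^ k = β then g α β else 0 := by
    intro α β hβ
    rw [mem_range] at hβ
    unfold cF
    rw [card_filter, Nat.cast_sum, sum_mul]
    refine sum_congr rfl fun j _ => ?_
    have h2 : ((p ^ k : ℕ) : ℤ) ∣ ((b j).2.val : ℤ) - (β : ℤ) ↔ (b j).2.val % p ^ k = β := by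
      constructor
      · intro h
        have h3 : Nat.ModEq (p ^ k) β (b j).2.val := Nat.modEq_iff_dvd.2 h
        have h4 : β % p ^ k = (b j).2.val % p ^ k := h3
        rw [Nat.mod_eq_of_lt hβ] at h4
        exact h4.symm
      · intro h
        apply Nat.modEq_iff_dvd.1
        show β % p ^ k = (b j).2.val % p ^ k
        rw [Nat.mod_eq_of_lt hβ, h]
    by_cases hc : (((b j).1.val : ℕ) : ZMod p) = α ∧ (b j).2.val % p ^ k = β
    · rw [if_pos hc, if_pos ⟨hc.1, h2.2 hc.2⟩]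
      simp
    · rw [if_neg hc, if_neg (fun h => hc ⟨h.1, h2.1 h.2⟩)]
      simp
  rw [sum_congr rfl fun α _ => sum_congr rfl (h1 α)]
  rw [sum_congr rfl fun α _ => sum_comm, sum_comm]
  refine sum_congr rfl fun j _ => ?_
  rw [sum_eq_single (((b j).1.val : ℕ) : ZMod p)]
  · rw [sum_eq_single ((b j).2.val % p ^ k)]
    · rw [if_pos ⟨rfl, rfl⟩]
    · intro β _ hβ
      rw [if_neg]
      rintro ⟨-, h⟩
      exact hβ h.symm
    · intro h
      exact absurd (mem_range.2 (Nat.mod_lt _ hpos)) h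
  · intro α _ hα
    refine sum_eq_zero fun β _ => ?_
    rw [if_neg]
    rintro ⟨h, -⟩
    exact hα h.symm
  · intro h
    exact absurd (mem_univ _) h

omit [NeZero q] in
theorem cF_tot (p k : ℕ) [NeZero p] : totF p k (cF p k b) = n := by
  have h := cF_sum (b := b) (R := ℕ) p k (fun _ _ => 1)
  unfold totF tot
  simp only [mul_one, Nat.cast_id, sum_const, card_univ, Fintype.card_fin, smul_eq_mul] at h
  exact h

theorem cF_VF (p k : ℕ) [hp : Fact p.Prime] (h₁ : p ∣ q) (h₂ : p ^ k ∣ q) (s t : ℤ) :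
    VF p k (cF p k b) s t ↔ F b (((((q / p : ℕ) : ℤ) * s : ℤ) : ZMod q),
      ((((q / p ^ k : ℕ) : ℤ) * t : ℤ) : ZMod q)) = 0 := by
  have hN : NeZero (p ^ k) := ⟨pow_ne_zero _ hp.out.ne_zero⟩
  have h := cF_sum (b := b) (R := ℂ) p k
    (fun α β => ee p (s * (α.val : ℤ)) * ee (p ^ k) (t * β))
  unfold VF
  rw [h, Fb_ee h₁ h₂]
  have h3 : ∀ j : Fin n, ee p (s * ((((((b j).1.val : ℕ) : ZMod p)).val : ℕ) : ℤ)) *
      ee (p ^ k) (t * ((((b j).2.val % p ^ k : ℕ) : ℕ) : ℤ)) =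
      ee p (s * ((b j).1.val : ℤ)) * ee (p ^ k) (t * ((b j).2.val : ℤ)) := by
    intro j
    congr 1
    · apply ee_congr
      rw [← mul_sub]
      apply Dvd.dvd.mul_left
      rw [← ZMod.intCast_zmod_eq_zero_iff_dvd]
      push_cast
      rw [ZMod.natCast_zmod_val, sub_self]
    · apply ee_congr
      rw [← mul_sub]
      apply Dvd.dvd.mul_left
      rw [← ZMod.intCast_zmod_eq_zero_iff_dvd, Int.cast_sub, Int.cast_natCast, Int.cast_natCast,
        ZMod.natCast_mod, sub_self]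
  rw [sum_congr rfl fun j _ => h3 j]

/-- the first inequality -/
theorem partA (h : Sp a b) {p k : ℕ} (hp : p.Prime) (h₁ : p ∣ q) (h₂ : p ^ k ∣ q) :
    n ∣ q ^ 2 ∨ n * (p ^ (k + 1 - padicValNat p n) + 1) ≤ q ^ 2 := by
  classical
  have : Fact p.Prime := ⟨hp⟩
  have hq : q ≠ 0 := NeZero.ne q
  obtain ⟨r, K, hK1, hK2, hK3⟩ := spread k (F := cF p k b) (fun α => cF_pd p k α) (by
    rw [cF_tot]
    exact h.pos.ne')
  rw [cF_tot] at hK2
  let φ : ℤ × ℤ → V q := fun x => (((((q / p : ℕ) : ℤ) * x.1 : ℤ) : ZMod q),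
      ((((q / p ^ k : ℕ) : ℤ) * x.2 : ℤ) : ZMod q))
  have hφ : ∀ x y : ℤ × ℤ, φ x - φ y = φ (x - y) := by
    intro x y
    refine Prod.ext ?_ ?_
    · show ((((q / p : ℕ) : ℤ) * x.1 : ℤ) : ZMod q) - ((((q / p : ℕ) : ℤ) * y.1 : ℤ) : ZMod q) =
        ((((q / p : ℕ) : ℤ) * (x.1 - y.1) : ℤ) : ZMod q)
      push_cast
      ring
    · show ((((q / p ^ k : ℕ) : ℤ) * x.2 : ℤ) : ZMod q) -
        ((((q / p ^ k : ℕ) : ℤ) * y.2 : ℤ) : ZMod q) =
        ((((q / p ^ k : ℕ) : ℤ) * (x.2 - y.2) : ℤ) : ZMod q)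
      push_cast
      ring
  have hdiv : ∀ d : ℕ, d ∣ q → ∀ z : ℤ, ((((q / d : ℕ) : ℤ) * z : ℤ) : ZMod q) = 0 →
      (d : ℤ) ∣ z := by
    intro d hd z hz
    rw [ZMod.intCast_zmod_eq_zero_iff_dvd] at hz
    have hdq : ((q : ℕ) : ℤ) = ((q / d : ℕ) : ℤ) * (d : ℤ) := by
      rw [← Nat.cast_mul, Nat.div_mul_cancel hd]
    rw [hdq] at hz
    refine Int.dvd_of_mul_dvd_mul_left ?_ hz
    intro h0
    rw [h0, zero_mul] at hdq
    exact hq (by exact_mod_cast hdq)
  have hinj : ∀ x ∈ K, ∀ y ∈ K, φ x = φ y → x = y := by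
    intro x hx y hy hxy
    by_contra hne
    apply (hK3 x hx y hy hne).2
    have h0 : φ (x - y) = 0 := by rw [← hφ, hxy, sub_self]
    obtain ⟨e1, e2⟩ := Prod.ext_iff.1 h0
    exact ⟨hdiv p h₁ _ e1, by exact_mod_cast hdiv (p ^ k) h₂ _ e2⟩
  have hpack := h.packing (K.image φ) (by
    intro x hx y hy hne
    obtain ⟨x', hx', rfl⟩ := mem_image.1 hx
    obtain ⟨y', hy', rfl⟩ := mem_image.1 hy
    have hne' : x' ≠ y' := fun h => hne (by rw [h])
    rw [hφ]
    intro h0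
    exact (hK3 x' hx' y' hy' hne').1 ((cF_VF p k h₁ h₂ _ _).2 h0))
  rw [card_image_of_injOn hinj] at hpack
  rcases hpack with h3 | h3
  · exact Or.inl ⟨K.card, by rw [h3, mul_comm]⟩
  · right
    have hrv : r ≤ padicValNat p n := (padicValNat_dvd_iff_le h.pos.ne').1 hK2
    have hcard : p ^ (k + 1 - padicValNat p n) ≤ K.card := by
      have hr : r ≤ k + 1 := by
        have h4 : p ^ r ∣ p ^ (k + 1) := ⟨K.card, by rw [← hK1, mul_comm]⟩
        exact (Nat.pow_dvd_pow_iff_le_right hp.one_lt).1 h4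
      have h5 : K.card = p ^ (k + 1 - r) := by
        have h6 : p ^ (k + 1) = p ^ (k + 1 - r) * p ^ r := by
          rw [← pow_add, Nat.sub_add_cancel hr]
        rw [h6] at hK1
        exact Nat.eq_of_mul_eq_mul_right (pow_pos hp.pos r) hK1
      rw [h5]
      exact Nat.pow_le_pow_right hp.pos (by omega)
    calc n * (p ^ (k + 1 - padicValNat p n) + 1) ≤ n * (K.card + 1) :=
          Nat.mul_le_mul_left _ (by omega)
      _ = (K.card + 1) * n := mul_comm _ _
      _ ≤ q ^ 2 := h3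

end Pool.Agent.Lib.MP_2b2af9_co.Lev
end
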